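import Pool.Agent.H44.EHN.Stmts

/-!
Row FAC of the board ehn (MP_48f148_nt): the factorization of a good number.
-/

set_option autoImplicit false

open Classical

namespace EHN

theorem FAC_thm : FACStmt := by
  intro d Y n x hn hx hgood
  have hne : n.factorial + 1 ≠ 0 := Nat.succ_ne_zero _
  have hprod : ∏ m ∈ (S d x).filter (fun m => Y ≤ m + 1),
      (m + 1 + n) ^ (n.factorial + 1).factorization (m + 1 + n) = n.factorial + 1 := by
    have h1 : ∏ m ∈ (S d x).filter (fun m => Y ≤ m + 1),
        (m + 1 + n) ^ (n.factorial + 1).factorization (m + 1 + n) =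
        ∏ k ∈ ((S d x).filter (fun m => Y ≤ m + 1)).image (fun m => m + 1 + n),
          k ^ (n.factorial + 1).factorization k := by
      rw [Finset.prod_image (fun a _ b _ h => by
        have h' : a + 1 + n = b + 1 + n := h
        omega)]
    rw [h1]
    have h2 : (n.factorial + 1).primeFactors ⊆
        ((S d x).filter (fun m => Y ≤ m + 1)).image (fun m => m + 1 + n) := by
      intro p hp
      obtain ⟨m, hm, hmp, hY⟩ := hgood p (Nat.prime_of_mem_primeFactors hp)
        (Nat.dvd_of_mem_primeFactors hp)
      refine Finset.mem_image.mpr ⟨m, Finset.mem_filter.mpr ⟨?_, hY⟩, by omega⟩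
      unfold S at hm ⊢
      rw [Finset.mem_filter, Finset.mem_Icc] at hm ⊢
      exact ⟨⟨hm.1.1, le_trans hm.1.2 hx⟩, hm.2⟩
    have h3 : ∏ k ∈ (n.factorial + 1).primeFactors, k ^ (n.factorial + 1).factorization k =
        n.factorial + 1 := by
      have := Nat.prod_factorization_pow_eq_self hne
      rw [Finsupp.prod, Nat.support_factorization] at this
      exact this
    rw [← Finset.prod_subset h2, h3]
    intro k _ hk
    have h4 : (n.factorial + 1).factorization k = 0 := by
      rw [← Finsupp.notMem_support_iff, Nat.support_factorization]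
      exact hk
    rw [h4, pow_zero]
  refine ⟨fun m => (n.factorial + 1).factorization (m + 1 + n), hprod.symm, ?_⟩
  have h5 : 2 ^ (∑ m ∈ (S d x).filter (fun m => Y ≤ m + 1), (n.factorial + 1).factorization (m + 1 + n)) ≤
      n.factorial + 1 := by
    conv_rhs => rw [← hprod]
    rw [← Finset.prod_pow_eq_pow_sum]
    exact Finset.prod_le_prod' fun m _ => Nat.pow_le_pow_left (by omega) _
  have h6 : n.factorial < 2 ^ (n ^ 2) := by
    calc n.factorial ≤ n ^ n := Nat.factorial_le_pow n
      _ < (2 ^ n) ^ n := Nat.pow_lt_pow_left Nat.lt_two_pow_self (by omega)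
      _ = 2 ^ (n ^ 2) := by rw [← pow_mul, sq]
  exact (Nat.pow_le_pow_iff_right (by norm_num : 1 < 2)).mp (le_trans h5 h6)

end EHN
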